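import Pool.Agent.Helper95.AF.Defs
import Pool.Agent.Helper82.AN.PtsP

/-! Project AF, block AMP: separated translates and the size of the noise -/

set_option autoImplicit false
open MeasureTheory Real Set Filter
open scoped ENNReal

namespace Pool.Agent.Helper10.AF

open Pool.Agent.Helper46.QP (TT Td)
open Pool.Agent.Helper82.AN (SepR)

variable {d : ℕ}

/-- **AMP**: separated translates and the size of the noise -/
theorem amp_ok {γ τ x : ℝ} (hd : 0 < d) (hγ : 0 < γ) (h1 : 1 / d ≤ τ) (h2 : τ * γ < x) (D : ℝ) (hD : 0 < D) :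
    ∃ C : ℝ, 1 ≤ C ∧ ∀ (n M : ℕ) (α : Td d), 1 ≤ n → 1 ≤ M → (∀ j : ℕ, 1 ≤ j → D * (j : ℝ) ^ (-τ) ≤ ‖j • α‖) →
      ∃ (r₀ : ℝ) (N P : ℕ) (β : Fin M → Td d), 0 < r₀ ∧ SepR α r₀ n M β ∧ 1 ≤ N ∧ 1 ≤ P ∧
        2 * ((M * n : ℕ) : ℝ) ≤ (2 * N * r₀) ^ (2 * P) ∧ ((P * N : ℝ)) ^ γ ≤ C * ((M * n : ℕ) : ℝ) ^ x := by
  have hdR : (0 : ℝ) < d := by exact_mod_cast hd
  have hτ : 0 < τ := lt_of_lt_of_le (by positivity) h1
  have hτd : 1 ≤ τ * d := by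
    rwa [div_le_iff₀ hdR] at h1
  obtain ⟨ε, hε⟩ : ∃ ε : ℝ, ε = x / γ - τ := ⟨_, rfl⟩
  have hε0 : 0 < ε := by
    rw [hε, sub_pos, lt_div_iff₀ hγ]
    exact h2
  obtain ⟨c, hc⟩ : ∃ c : ℝ, c = min D (1 / 8) := ⟨_, rfl⟩
  have hc0 : 0 < c := by rw [hc]; exact lt_min hD (by norm_num)
  have hcD : c ≤ D := by rw [hc]; exact min_le_left _ _
  have hc8 : c ≤ 1 / 8 := by rw [hc]; exact min_le_right _ _
  have hlog2 : 0 < Real.log 2 := Real.log_pos (by norm_num)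
  obtain ⟨A, hA⟩ : ∃ A : ℝ, A = 1 + 1 / (ε * Real.log 2) := ⟨_, rfl⟩
  have hA1 : 1 ≤ A := by
    rw [hA]
    have : 0 ≤ 1 / (ε * Real.log 2) := by positivity
    linarith
  have hB1 : 1 ≤ A * (2 / c) := by
    have h3 : 1 ≤ 2 / c := by
      rw [le_div_iff₀ hc0]
      linarith
    nlinarith
  refine ⟨(A * (2 / c)) ^ γ, Real.one_le_rpow hB1 hγ.le, ?_⟩
  intro n M α hn hM hα
  obtain ⟨Q, hQ⟩ : ∃ Q : ℕ, Q = M * n := ⟨_, rfl⟩
  rw [← hQ]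
  have hQ1 : 1 ≤ Q := by
    rw [hQ]
    exact Nat.mul_pos hM hn
  have hQR : (1 : ℝ) ≤ Q := by exact_mod_cast hQ1
  have hQ0 : (0 : ℝ) < Q := by linarith
  have hnQ : (n : ℝ) ≤ Q := by
    have : n ≤ Q := by
      rw [hQ]
      exact Nat.le_mul_of_pos_left _ hM
    exact_mod_cast this
  obtain ⟨r, hr⟩ : ∃ r : ℝ, r = c * (Q : ℝ) ^ (-τ) := ⟨_, rfl⟩
  have hQτ : (Q : ℝ) ^ (-τ) ≤ 1 := Real.rpow_le_one_of_one_le_of_nonpos hQR (by linarith)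
  have hQτ0 : 0 < (Q : ℝ) ^ (-τ) := Real.rpow_pos_of_pos hQ0 _
  have hr0 : 0 < r := by rw [hr]; positivity
  have hr1 : r ≤ 1 := by
    rw [hr]
    nlinarith
  have hsep : ∀ k : ℕ, 1 ≤ k → k < n → r ≤ ‖k • α‖ := by
    intro k hk hkn
    refine le_trans ?_ (hα k hk)
    have hk0 : (0 : ℝ) < k := by exact_mod_cast hk
    have hkQ : (k : ℝ) ≤ Q := by
      have : (k : ℝ) ≤ n := by exact_mod_cast hkn.le
      linarith
    have h3 : (Q : ℝ) ^ (-τ) ≤ (k : ℝ) ^ (-τ) := Real.rpow_le_rpow_of_nonpos hk0 hkQ (by linarith)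
    rw [hr]
    exact mul_le_mul hcD h3 hQτ0.le hD.le
  have hvol : (M : ℝ) * (2 * n * (2 * r) ^ d) < 1 := by
    have e1 : (M : ℝ) * (2 * n * (2 * r) ^ d) = 2 * (2 * c) ^ d * (Q * ((Q : ℝ) ^ (-τ)) ^ d) := by
      rw [hr, hQ]
      push_cast
      rw [show 2 * (c * ((M : ℝ) * n) ^ (-τ)) = (2 * c) * ((M : ℝ) * n) ^ (-τ) by ring, mul_pow]
      ring
    have e2 : (Q : ℝ) * ((Q : ℝ) ^ (-τ)) ^ d ≤ 1 := by
      rw [← Real.rpow_natCast, ← Real.rpow_mul hQ0.le]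
      have e3 : (Q : ℝ) * (Q : ℝ) ^ (-τ * d) = (Q : ℝ) ^ (1 + -τ * d) := by
        rw [Real.rpow_add hQ0, Real.rpow_one]
      rw [e3]
      refine Real.rpow_le_one_of_one_le_of_nonpos hQR ?_
      linarith
    have e3 : (2 * c) ^ d ≤ 1 / 4 := by
      calc (2 * c) ^ d ≤ (2 * c) ^ 1 := pow_le_pow_of_le_one (by positivity) (by linarith) hd
        _ ≤ 1 / 4 := by linarith
    have e4 : 0 ≤ (Q : ℝ) * ((Q : ℝ) ^ (-τ)) ^ d := by positivity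
    have e5 : 0 ≤ (2 * c) ^ d := by positivity
    rw [e1]
    nlinarith
  obtain ⟨β, hβ⟩ := Pool.Agent.Helper82.AN.pts hd hr0 hn hsep hvol
  obtain ⟨N, hN⟩ : ∃ N : ℕ, N = ⌈1 / r⌉₊ := ⟨_, rfl⟩
  obtain ⟨P, hP⟩ : ∃ P : ℕ, P = Nat.log 2 Q + 1 := ⟨_, rfl⟩
  have hN1 : 1 ≤ N := by
    rw [hN, Nat.one_le_ceil_iff]
    positivity
  have hNr : 1 ≤ N * r := by
    have h3 : 1 / r ≤ N := by
      rw [hN]
      exact Nat.le_ceil _
    rwa [div_le_iff₀ hr0] at h3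
  have hNle : (N : ℝ) ≤ 2 / r := by
    have h3 : (N : ℝ) < 1 / r + 1 := by
      rw [hN]
      exact Nat.ceil_lt_add_one (by positivity)
    have h4 : 1 ≤ 1 / r := by
      rw [le_div_iff₀ hr0]
      linarith
    have h5 : 2 / r = 1 / r + 1 / r := by ring
    linarith
  refine ⟨r, N, P, β, hr0, hβ, hN1, by omega, ?_, ?_⟩
  · have h3 : Q < 2 ^ P := by
      rw [hP]
      exact Nat.lt_pow_succ_log_self (by norm_num) Q
    have h4 : (Q : ℝ) ≤ 2 ^ P := by exact_mod_cast h3.le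
    have h5 : (2 : ℝ) ≤ 2 ^ P := by
      calc (2 : ℝ) = 2 ^ 1 := by norm_num
        _ ≤ 2 ^ P := pow_le_pow_right₀ (by norm_num) (by omega)
    calc 2 * (Q : ℝ) ≤ 2 ^ P * 2 ^ P := mul_le_mul h5 h4 hQ0.le (by positivity)
      _ = 2 ^ (2 * P) := by rw [two_mul, pow_add]
      _ ≤ (2 * N * r) ^ (2 * P) := by
          refine pow_le_pow_left₀ (by norm_num) ?_ _
          linarith
  · have hPle : (P : ℝ) ≤ A * (Q : ℝ) ^ ε := by
      have h3 : (2 : ℝ) ^ (Nat.log 2 Q) ≤ Q := by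
        exact_mod_cast Nat.pow_log_le_self 2 (by omega)
      have h4 : (Nat.log 2 Q : ℝ) * Real.log 2 ≤ Real.log Q := by
        rw [← Real.log_pow]
        exact Real.log_le_log (by positivity) h3
      have h5 : Real.log Q ≤ (Q : ℝ) ^ ε / ε := Real.log_le_rpow_div hQ0.le hε0
      have h6 : (Nat.log 2 Q : ℝ) ≤ (Q : ℝ) ^ ε / ε / Real.log 2 := by
        rw [le_div_iff₀ hlog2]
        linarith
      have h7 : 1 ≤ (Q : ℝ) ^ ε := Real.one_le_rpow hQR hε0.le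
      rw [hP, hA]
      push_cast
      have h8 : (Q : ℝ) ^ ε / ε / Real.log 2 = 1 / (ε * Real.log 2) * (Q : ℝ) ^ ε := by
        field_simp
      rw [h8] at h6
      linarith
    have hNle' : (N : ℝ) ≤ 2 / c * (Q : ℝ) ^ τ := by
      refine hNle.trans (le_of_eq ?_)
      rw [hr, Real.rpow_neg hQ0.le]
      field_simp
    have h3 : (P * N : ℝ) ≤ A * (2 / c) * (Q : ℝ) ^ (x / γ) := by
      have e1 : (Q : ℝ) ^ (x / γ) = (Q : ℝ) ^ ε * (Q : ℝ) ^ τ := by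
        rw [← Real.rpow_add hQ0, hε]
        congr 1
        ring
      calc (P * N : ℝ) ≤ (A * (Q : ℝ) ^ ε) * (2 / c * (Q : ℝ) ^ τ) := mul_le_mul hPle hNle' (Nat.cast_nonneg _) (by positivity)
        _ = A * (2 / c) * (Q : ℝ) ^ (x / γ) := by rw [e1]; ring
    calc (P * N : ℝ) ^ γ ≤ (A * (2 / c) * (Q : ℝ) ^ (x / γ)) ^ γ := Real.rpow_le_rpow (by positivity) h3 hγ.le
      _ = (A * (2 / c)) ^ γ * (Q : ℝ) ^ x := by
          rw [Real.mul_rpow (by positivity) (by positivity), ← Real.rpow_mul hQ0.le, div_mul_cancel₀ _ hγ.ne']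

end Pool.Agent.Helper10.AF
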